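import Pool.Agent.Helper824_tan.Main

set_option autoImplicit false

/-!
# A hull-kernel closed `t`-analytic set for `H^∞ + C` that is not the closure of a Gleason part

Notation (definitions in `Pool.Agent.Helper824_tan.Defs`): `HinfC` is the Banach algebra `H^∞ + C`,
`M A` is the character space of `A` with the Gelfand topology, `gleasonPart x` is `P(x)`.

The negated form of the question: there is a hull-kernel closed `t`-analytic set `E` with at least
two points such that `E` is not the closure of `P(x)` for any `x` in `G`. Here this is shown for all
`x` in `M(H^∞ + C)`, whether in `G` or not.

## Idea of the proof

In the right half plane the points `2^n`, `n = 0, 1, 2, …` form an interpolating sequence whose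
harmonic measures decay geometrically. For an ultrafilter `p` on `ℤ` that contains all half lines
the character `L p w : f ↦ lim_p f(2^n w)` belongs to `H^∞ + C`, and `w ↦ L p w` is the Hoffman map
of a Gleason part; the part meets the closure of the sequence in the orbit of `p` under the shift.
Let `K` be a closed shift invariant set of such ultrafilters and `E` the closure of the union of
the parts through `K`.

* `E` is hull-kernel closed for every `K` (Blaschke products with zeros of high order at the points
  `2^n` near `K`, and the corona theorem).
* `E` is `t`-analytic if `K` is topologically transitive under the shift.
* If `E` is the closure of some part, then some point of `K` has a dense orbit in `K`.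

A topologically transitive `K` in which no point has a dense orbit is obtained from an almost
disjoint family of continuum many sets of integers in which all finite patterns occur, and Zorn's
lemma.
-/

namespace Pool.Agent.Results.MP_ab1db7_an.NotPartClosure

open Pool.Agent.Helper824_tan

/-- There is a hull-kernel closed `t`-analytic set `E` in `M(H^∞ + C)` with at least two points
that is not the closure of the Gleason part of any point of `M(H^∞ + C)`. -/
theorem result : ∃ E : Set (M HinfC), HullKernelClosed E ∧ TAnalytic E ∧ E.Nontrivial ∧
    ∀ x : M HinfC, E ≠ closure (gleasonPart x) :=
  main

end Pool.Agent.Results.MP_ab1db7_an.NotPartClosure
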